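import Pool.Agent.Helper95.PW.Stmts

set_option autoImplicit false

namespace Pool.Agent.Helper95.PW

open MeasureTheory Filter

theorem INL_cauchy {n : ℕ} {f h : Wf n} (hf : Sm f) (hh : ∀ s, MemLp (h s) 2) :
    |∑ s, ∫ x, f s x * h s x| ≤ Real.sqrt (sq f) * Real.sqrt (sq h) := by
  have hf2 : ∀ s, MemLp (f s) 2 := fun s =>
    (hf s).1.continuous.memLp_of_hasCompactSupport (hf s).2
  have i1 : ∀ s, Integrable (fun x => f s x ^ 2) := fun s => (hf2 s).integrable_sq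
  have i2 : ∀ s, Integrable (fun x => h s x ^ 2) := fun s => (hh s).integrable_sq
  have i3 : ∀ s, Integrable (fun x => f s x * h s x) := fun s => (hf2 s).integrable_mul (hh s)
  have key : ∀ c : ℝ, 0 ≤ sq h * (c * c) + (2 * ∑ s, ∫ x, f s x * h s x) * c + sq f := by
    intro c
    have e : sq h * (c * c) + (2 * ∑ s, ∫ x, f s x * h s x) * c + sq f =
        ∑ s, ∫ x, (f s x + c * h s x) ^ 2 := by
      unfold sq
      rw [Finset.mul_sum, Finset.sum_mul, Finset.sum_mul, ← Finset.sum_add_distrib,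
        ← Finset.sum_add_distrib]
      refine Finset.sum_congr rfl fun s _ => ?_
      have e1 : (fun x => (f s x + c * h s x) ^ 2) = fun x =>
          (c * c) * h s x ^ 2 + (2 * c) * (f s x * h s x) + f s x ^ 2 := by
        funext x; ring
      have j1 : Integrable (fun x => (c * c) * h s x ^ 2) := (i2 s).const_mul _
      have j2 : Integrable (fun x => (2 * c) * (f s x * h s x)) := (i3 s).const_mul _
      have j12 : Integrable (fun x => (c * c) * h s x ^ 2 + (2 * c) * (f s x * h s x)) :=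
        j1.add j2
      rw [e1, integral_add j12 (i1 s), integral_add j1 j2, integral_const_mul,
        integral_const_mul]
      ring
    rw [e]
    exact Finset.sum_nonneg fun s _ => integral_nonneg fun x => sq_nonneg _
  have hd := discrim_le_zero key
  unfold discrim at hd
  have s1 : 0 ≤ sq f := Finset.sum_nonneg fun s _ => integral_nonneg fun x => sq_nonneg _
  rw [← Real.sqrt_mul s1]
  apply Real.abs_le_sqrt
  nlinarith

theorem INL_nr : Continuous nr := by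
  unfold nr; fun_prop

theorem INL_nr0 (y : R3) : 0 ≤ nr y := Real.sqrt_nonneg _

theorem INL_dv {n : ℕ} {v : Cf n → ℝ} (k : Fin n) (i : Fin 3) (h1 : ContDiff ℝ (⊤ : ℕ∞) v)
    (h2 : HasCompactSupport v) : ContDiff ℝ (⊤ : ℕ∞) (dv k i v) ∧ HasCompactSupport (dv k i v) :=
  ⟨(h1.fderiv_right (m := (⊤ : ℕ∞)) (by simp)).clm_apply contDiff_const,
    h2.fderiv_apply (𝕜 := ℝ) _⟩

theorem INL_att {n : ℕ} : Measurable (att (n := n)) := by
  unfold att
  exact Finset.measurable_sum _ fun k _ =>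
    measurable_const.div (INL_nr.measurable.comp (measurable_pi_apply k))

theorem INL_rep {n : ℕ} : Measurable (rep (n := n)) := by
  unfold rep
  refine Finset.measurable_sum _ fun k _ => Finset.measurable_sum _ fun l _ => ?_
  by_cases h : k < l
  · simp only [h, if_true]
    exact measurable_const.div (INL_nr.measurable.comp
      ((measurable_pi_apply k).sub (measurable_pi_apply l)))
  · simp only [h, if_false]
    exact measurable_const

theorem INL_h2 (hI : ST_INT) {n : ℕ} (Z E : ℝ) {u : Wf n} (hu : Sm u) (s : Fin n → Fin 2) :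
    MemLp (fun x => hm Z (u s) x - E * u s x) 2 := by
  obtain ⟨h1, h2⟩ := hu s
  have m0 : MemLp (u s) 2 := h1.continuous.memLp_of_hasCompactSupport h2
  obtain ⟨_, _, j1, j2⟩ := hI n (u s) (u s) h1 h2 h1 h2
  have m1 : MemLp (fun x : Cf n => att x * u s x) 2 :=
    (memLp_two_iff_integrable_sq (INL_att.aestronglyMeasurable.mul
      h1.continuous.aestronglyMeasurable)).2 j1
  have m2 : MemLp (fun x : Cf n => rep x * u s x) 2 :=
    (memLp_two_iff_integrable_sq (INL_rep.aestronglyMeasurable.mul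
      h1.continuous.aestronglyMeasurable)).2 j2
  have m3 : MemLp (fun x : Cf n => ∑ k, ∑ i, dv k i (dv k i (u s)) x) 2 := by
    refine memLp_finsetSum _ fun k _ => memLp_finsetSum _ fun i _ => ?_
    obtain ⟨a1, a2⟩ := INL_dv k i h1 h2
    obtain ⟨b1, b2⟩ := INL_dv k i a1 a2
    exact b1.continuous.memLp_of_hasCompactSupport b2
  have m4 := ((m3.neg.add m2).sub (m1.const_mul Z)).sub (m0.const_mul E)
  refine m4.congr_norm ?_ (ae_of_all _ fun x => ?_) |> fun h => h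
  · exact m4.1.congr (ae_of_all _ fun x => by
      simp only [Pi.sub_apply, Pi.add_apply, Pi.neg_apply, hm]; ring)
  · simp only [Pi.sub_apply, Pi.add_apply, Pi.neg_apply, hm]
    congr 1; ring

theorem INL_int {n : ℕ} {w : R3 → ℝ} {B : ℝ} (hw : Measurable w) (hB : ∀ y, |w y| ≤ B)
    {u : Wf n} (hu : Sm u) (s : Fin n → Fin 2) :
    Integrable (fun x : Cf n => (∑ k, w (x k)) * u s x ^ 2) := by
  obtain ⟨h1, h2⟩ := hu s
  have i1 : Integrable (fun x => u s x ^ 2) :=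
    (h1.continuous.memLp_of_hasCompactSupport h2 (p := 2)).integrable_sq
  refine i1.bdd_mul (c := n * B) ?_ (ae_of_all _ fun x => ?_)
  · exact (Finset.measurable_sum _ fun k _ =>
      hw.comp (measurable_pi_apply k)).aestronglyMeasurable
  · rw [Real.norm_eq_abs]
    calc |∑ k : Fin n, w (x k)| ≤ ∑ k : Fin n, |w (x k)| := Finset.abs_sum_le_sum_abs _ _
      _ ≤ ∑ _k : Fin n, B := Finset.sum_le_sum fun k _ => hB _
      _ = n * B := by simp

theorem INL_mono {n : ℕ} {w w' : R3 → ℝ} {B : ℝ} (hw : Measurable w) (hB : ∀ y, |w y| ≤ B)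
    (hw' : Measurable w') (hB' : ∀ y, |w' y| ≤ B) (h : ∀ y, w y ≤ w' y) {u : Wf n} (hu : Sm u) :
    one w u ≤ one w' u := by
  unfold one
  refine Finset.sum_le_sum fun s _ => ?_
  refine integral_mono (INL_int hw hB hu s) (INL_int hw' hB' hu s) fun x => ?_
  exact mul_le_mul_of_nonneg_right (Finset.sum_le_sum fun k _ => h _) (sq_nonneg _)

theorem INL_one0 {n : ℕ} {w : R3 → ℝ} (h : ∀ y, 0 ≤ w y) (u : Wf n) : 0 ≤ one w u :=
  Finset.sum_nonneg fun s _ => integral_nonneg fun x =>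
    mul_nonneg (Finset.sum_nonneg fun k _ => h _) (sq_nonneg _)

theorem INL_onec {n : ℕ} (c : ℝ) (w : R3 → ℝ) (u : Wf n) :
    one (fun y => c * w y) u = c * one w u := by
  unfold one
  rw [Finset.mul_sum]
  refine Finset.sum_congr rfl fun s _ => ?_
  rw [← integral_const_mul]
  congr 1
  funext x
  rw [← Finset.mul_sum]
  ring

theorem INL_ball (R : ℝ) : Measurable (ball R) ∧ (∀ y, 0 ≤ ball R y ∧ ball R y ≤ 1) := by
  classical
  constructor
  · unfold ball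
    exact measurable_const.indicator (measurableSet_le INL_nr.measurable measurable_const)
  · intro y
    unfold ball
    rw [Set.indicator_apply]
    split_ifs <;> norm_num

theorem INL_one1 {n : ℕ} (R : ℝ) {u : Wf n} (hu : Sm u) : one (ball R) u ≤ n * sq u := by
  have h := INL_mono (B := 1) (INL_ball R).1 (fun y => by
    rw [abs_of_nonneg ((INL_ball R).2 y).1]; exact ((INL_ball R).2 y).2)
    (w' := fun _ => 1) measurable_const (fun y => by norm_num) (fun y => ((INL_ball R).2 y).2) hu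
  refine h.trans (le_of_eq ?_)
  unfold one sq
  rw [Finset.mul_sum]
  refine Finset.sum_congr rfl fun s _ => ?_
  rw [← integral_const_mul]
  simp

theorem INL_grd {g : R3 → ℝ} {K r R : ℝ} (hg : Scale g K r) (_hK : 0 ≤ K)
    (h0 : ∀ y, R < nr y → g y = 0) {n : ℕ} {u : Wf n} (hu : Sm u) :
    one (grd g) u ≤ 3 * K ^ 2 * one (ball R) u := by
  have hpd : ∀ i, Continuous (pd i g) := fun i =>
    (hg.sm.continuous_fderiv (by simp)).clm_apply continuous_const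
  have hm : Measurable (grd g) := by
    unfold grd
    exact Finset.measurable_sum _ fun i _ => ((hpd i).measurable.pow_const 2)
  have hb : ∀ y, 0 ≤ grd g y ∧ grd g y ≤ 3 * K ^ 2 := by
    intro y
    constructor
    · exact Finset.sum_nonneg fun i _ => sq_nonneg _
    · calc grd g y ≤ ∑ _i : Fin 3, K ^ 2 := Finset.sum_le_sum fun i _ =>
            sq_le_sq' (abs_le.1 (hg.d1 i y)).1 (abs_le.1 (hg.d1 i y)).2
        _ = 3 * K ^ 2 := by simp
  have hz : ∀ y, R < nr y → grd g y = 0 := by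
    intro y hy
    have he : g =ᶠ[nhds y] fun _ => 0 :=
      Filter.eventually_of_mem ((isOpen_lt continuous_const INL_nr).mem_nhds hy) fun z hz => h0 z hz
    unfold grd pd
    rw [he.fderiv_eq]
    simp
  rw [← INL_onec]
  refine INL_mono (B := 3 * K ^ 2) hm (fun y => by rw [abs_of_nonneg (hb y).1]; exact (hb y).2)
    ((INL_ball R).1.const_mul _) (fun y => ?_) (fun y => ?_) hu
  · rw [abs_of_nonneg (mul_nonneg (by positivity) ((INL_ball R).2 y).1)]
    calc 3 * K ^ 2 * ball R y ≤ 3 * K ^ 2 * 1 :=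
          mul_le_mul_of_nonneg_left ((INL_ball R).2 y).2 (by positivity)
      _ = _ := mul_one _
  · by_cases hy : nr y ≤ R
    · have : ball R y = 1 := by
        unfold ball
        rw [Set.indicator_of_mem (show y ∈ {y | nr y ≤ R} from hy)]
      rw [this, mul_one]
      exact (hb y).2
    · rw [hz y (not_le.1 hy)]
      exact mul_nonneg (by positivity) ((INL_ball R).2 y).1

/-- the final inequality -/
theorem INL_fin {p e a N b ν S X K C D q ρ ν0 S0 X0 P0 : ℝ}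
    (h1 : (e - 2 * p) ^ 2 ≤ (a + N) * b) (ha : |a| ≤ D * ρ) (he : |e| ≤ D * ρ)
    (hN : 0 ≤ N ∧ N ≤ 3 * K ^ 2 * ν) (hb : 0 ≤ b ∧ b ≤ C * K ^ 2 * S + 2 * X + (q + 3 * D) * ρ)
    (hρ : 0 ≤ ρ ∧ ρ ≤ 1) (hp : 0 ≤ p ∧ p ≤ P0) (hν : 0 ≤ ν ∧ ν ≤ ν0) (hS : 0 ≤ S ∧ S ≤ S0)
    (hX : 0 ≤ X ∧ X ≤ X0) (hK : 1 ≤ K) (hC : 0 ≤ C) (hD : 0 ≤ D) (hq : 0 ≤ q) :
    p ^ 2 ≤ (C + 2) * K ^ 4 * (ν * (S + X)) +
      (3 * K ^ 2 * ν0 * (q + 3 * D) + D * (C * K ^ 2 * S0 + 2 * X0 + (q + 3 * D)) +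
        4 * D * P0) * ρ := by
  obtain ⟨ρ0, ρ1⟩ := hρ
  obtain ⟨p0, p1⟩ := hp
  obtain ⟨ν1, ν2⟩ := hν
  obtain ⟨S1, S2⟩ := hS
  obtain ⟨X1, X2⟩ := hX
  have K0 : 0 ≤ K := by linarith
  have K2 : K ^ 2 ≤ K ^ 4 := pow_le_pow_right₀ hK (by norm_num)
  have Dρ : 0 ≤ D * ρ := mul_nonneg hD ρ0
  have e1 : 4 * p ^ 2 ≤ (e - 2 * p) ^ 2 + 4 * (D * ρ) * p := by
    have := (abs_le.1 he).2
    nlinarith [sq_nonneg e, mul_nonneg p0 (sub_nonneg.2 this)]
  have e2 : (a + N) * b ≤ (N + D * ρ) * b := by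
    apply mul_le_mul_of_nonneg_right _ hb.1
    linarith [(abs_le.1 ha).2]
  have e3 : (N + D * ρ) * b ≤ (3 * K ^ 2 * ν + D * ρ) *
      (C * K ^ 2 * S + 2 * X + (q + 3 * D) * ρ) :=
    mul_le_mul (by linarith [hN.2]) hb.2 hb.1 (by positivity)
  have e4 : (3 * K ^ 2 * ν + D * ρ) * (C * K ^ 2 * S + 2 * X + (q + 3 * D) * ρ) =
      3 * K ^ 4 * (ν * (C * S)) + 6 * K ^ 2 * (ν * X) + 3 * K ^ 2 * ν * (q + 3 * D) * ρ +
        D * (C * K ^ 2 * S + 2 * X + (q + 3 * D) * ρ) * ρ := by ring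
  have e5 : 6 * K ^ 2 * (ν * X) ≤ 6 * K ^ 4 * (ν * X) := by
    apply mul_le_mul_of_nonneg_right _ (mul_nonneg ν1 X1); linarith
  have e6 : 3 * K ^ 2 * ν * (q + 3 * D) * ρ ≤ 3 * K ^ 2 * ν0 * (q + 3 * D) * ρ := by gcongr
  have e7 : D * (C * K ^ 2 * S + 2 * X + (q + 3 * D) * ρ) * ρ ≤
      D * (C * K ^ 2 * S0 + 2 * X0 + (q + 3 * D) * 1) * ρ := by gcongr
  have e8 : 4 * (D * ρ) * p ≤ 4 * D * P0 * ρ := by
    calc 4 * (D * ρ) * p ≤ 4 * (D * ρ) * P0 := by gcongr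
      _ = _ := by ring
  have f1 : 0 ≤ K ^ 4 * (ν * (C * S)) := by positivity
  have f2 : 0 ≤ K ^ 4 * (ν * X) := by positivity
  have f3 : 0 ≤ K ^ 4 * (ν * S) := by positivity
  have f4 : 0 ≤ C * (K ^ 4 * (ν * X)) := by positivity
  have ν00 : 0 ≤ ν0 := ν1.trans ν2
  have S00 : 0 ≤ S0 := S1.trans S2
  have X00 : 0 ≤ X0 := X1.trans X2
  have P00 : 0 ≤ P0 := p0.trans p1
  have f5 : 0 ≤ (3 * K ^ 2 * ν0 * (q + 3 * D) + D * (C * K ^ 2 * S0 + 2 * X0 + (q + 3 * D)) +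
        4 * D * P0) * ρ := by positivity
  nlinarith

theorem st_INL (h1 : ST_CSQ) (h2 : ST_STB) (h3 : ST_AID) (h4 : ST_CID) (h5 : ST_BIN)
    (h6 : ST_MOR) (h7 : ST_ERR) (hI : ST_INT) : ST_INL := by
  obtain ⟨C, hC, hB⟩ := h5
  refine ⟨C + 2, by positivity, ?_⟩
  intro n Z E g K R M hLow hZ hK hg hR hin hout
  choose Cm hCm hE using fun m => h7 n (g m) (hg m).sm (hg m).cs
  obtain ⟨C1, hC1, hCle⟩ : ∃ C1 : ℝ, 0 < C1 ∧ ∀ m, Cm m ≤ C1 := by
    refine ⟨Cm 0 + Cm 1 + Cm 2, by linarith [hCm 0, hCm 1, hCm 2], fun m => ?_⟩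
    fin_cases m <;> simp <;> linarith [hCm 0, hCm 1, hCm 2]
  obtain ⟨M0, hM0, hMM⟩ : ∃ M0 : ℝ, 0 ≤ M0 ∧ M ≤ M0 := ⟨|M|, abs_nonneg _, le_abs_self _⟩
  obtain ⟨D, hDdef⟩ : ∃ D, D = Real.sqrt (C1 * (2 * M0 + 2)) := ⟨_, rfl⟩
  have hD : 0 ≤ D := by rw [hDdef]; exact Real.sqrt_nonneg _
  have hq : 0 ≤ 4 * Z * Real.sqrt (n * M0) := by positivity
  have hn0 : (0:ℝ) ≤ n := Nat.cast_nonneg _
  refine ⟨3 * K ^ 2 * (2 * n) * (4 * Z * Real.sqrt (n * M0) + 3 * D) +
    D * (C * K ^ 2 * ((M0 + M0 + Z * M0) / R ^ 2 + 2 * n / R ^ 4) + 2 * (Z ^ 2 * M0) +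
      (4 * Z * Real.sqrt (n * M0) + 3 * D)) + 4 * D * (C1 * (M0 + 2)) + 1, by positivity, ?_⟩
  intro u hu hA hsq hkin hpair hone hdd hres m
  have hh := INL_h2 hI Z E hu
  have ρ0 : 0 ≤ Real.sqrt (res Z E u) := Real.sqrt_nonneg _
  have ρ1 : Real.sqrt (res Z E u) ≤ 1 := Real.sqrt_le_one.2 hres
  have hcau : ∀ f : Wf n, Sm f → sq f ≤ C1 * (2 * M0 + 2) →
      |∑ s, ∫ x, f s x * (hm Z (u s) x - E * u s x)| ≤ D * Real.sqrt (res Z E u) := by
    intro f hf hs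
    refine (INL_cauchy hf hh).trans ?_
    rw [hDdef]
    exact mul_le_mul (Real.sqrt_le_sqrt hs) le_rfl (Real.sqrt_nonneg _) (Real.sqrt_nonneg _)
  have sq0 : ∀ v : Wf n, 0 ≤ sq v := fun v =>
    Finset.sum_nonneg fun s _ => integral_nonneg fun x => sq_nonneg _
  have kin0 : 0 ≤ kin u := Finset.sum_nonneg fun k _ => Finset.sum_nonneg fun i _ => sq0 _
  have dd0 : 0 ≤ dd u := Finset.sum_nonneg fun k _ => Finset.sum_nonneg fun i _ =>
    Finset.sum_nonneg fun l _ => Finset.sum_nonneg fun m _ => sq0 _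
  have rep0 : ∀ x : Cf n, 0 ≤ rep x := fun x => Finset.sum_nonneg fun k _ =>
    Finset.sum_nonneg fun l _ => by
      split_ifs
      · exact div_nonneg zero_le_one (INL_nr0 _)
      · exact le_rfl
  have pair0 : 0 ≤ pair u := Finset.sum_nonneg fun s _ => integral_nonneg fun x =>
    mul_nonneg (rep0 x) (sq_nonneg _)
  have on0 : 0 ≤ one (fun y => 1 / nr y) u :=
    INL_one0 (fun y => div_nonneg zero_le_one (INL_nr0 _)) u
  have ν0 : 0 ≤ one (ball (2 * R)) u := INL_one0 (fun y => ((INL_ball _).2 y).1) u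
  have ν1 : one (ball (2 * R)) u ≤ 2 * n := by
    refine (INL_one1 _ hu).trans ?_
    nlinarith
  have su0 := sq0 u
  have SF : ∀ m, Sm (fun s => Fg (g m) (u s)) := fun m => (h2 n (g m) u (hg m).sm hu).1
  have SP : ∀ m, Sm (fun s => Pg (g m) (u s)) := fun m => (h2 n (g m) u (hg m).sm hu).2.1
  have AF : ∀ m, Anti (fun s => Fg (g m) (u s)) := fun m =>
    ((h2 n (g m) u (hg m).sm hu).2.2 hA).1
  have AP : ∀ m, Anti (fun s => Pg (g m) (u s)) := fun m =>
    ((h2 n (g m) u (hg m).sm hu).2.2 hA).2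
  have SFF : ∀ m, Sm (fun s => Fg (g m) (Fg (g m) (u s))) := fun m =>
    (h2 n (g m) (fun s => Fg (g m) (u s)) (hg m).sm (SF m)).1
  have SFP : ∀ m, Sm (fun s => Fg (g m) (Pg (g m) (u s))) := fun m =>
    (h2 n (g m) (fun s => Pg (g m) (u s)) (hg m).sm (SP m)).1
  have SPP : ∀ m, Sm (fun s => Pg (g m) (Pg (g m) (u s))) := fun m =>
    (h2 n (g m) (fun s => Pg (g m) (u s)) (hg m).sm (SP m)).2.1
  have bd : ∀ (m : Fin 3) (y : ℝ), 0 ≤ y → y ≤ 2 * M0 + 2 → Cm m * y ≤ C1 * (2 * M0 + 2) :=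
    fun m y hy0 hy => mul_le_mul (hCle m) hy hy0 hC1.le
  have a1 : ∀ m, |∑ s, ∫ x, Fg (g m) (Fg (g m) (u s)) x * (hm Z (u s) x - E * u s x)| ≤
      D * Real.sqrt (res Z E u) := fun m =>
    hcau _ (SFF m) ((hE m u hu).1.trans (bd m _ su0 (by linarith)))
  have a2 : ∀ m, |∑ s, ∫ x, Fg (g m) (Pg (g m) (u s)) x * (hm Z (u s) x - E * u s x)| ≤
      D * Real.sqrt (res Z E u) := fun m =>
    hcau _ (SFP m) ((hE m u hu).2.2.1.trans (bd m _ (by linarith) (by linarith)))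
  have a3 : ∀ m, |∑ s, ∫ x, Pg (g m) (Pg (g m) (u s)) x * (hm Z (u s) x - E * u s x)| ≤
      D * Real.sqrt (res Z E u) := fun m =>
    hcau _ (SPP m) ((hE m u hu).2.2.2.trans (bd m _ (by linarith) (by linarith)))
  have hP0 : sq (fun s => Pg (g m) (u s)) ≤ C1 * (M0 + 2) :=
    (hE m u hu).2.1.trans (mul_le_mul (hCle m) (by linarith) (by linarith) hC1.le)
  have b0 : ∀ m, 0 ≤ Q Z (fun s => Pg (g m) (u s)) - E * sq (fun s => Pg (g m) (u s)) := fun m =>
    sub_nonneg.2 (hLow _ (SP m) (AP m))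
  have hbin := hB n Z E g K R (4 * Z * kin u + 8 * Real.sqrt (n * kin u * res Z E u)) u hZ hg hR
    hin hout hu (fun s hs => h6 n Z E s u hZ hs hu)
  have hsing := Finset.single_le_sum (f := fun m => Q Z (fun s => Pg (g m) (u s)) -
    E * sq (fun s => Pg (g m) (u s))) (fun m _ => b0 m) (Finset.mem_univ m)
  have herr : -(∑ m, ∑ s, ∫ x, Pg (g m) (Pg (g m) (u s)) x * (hm Z (u s) x - E * u s x)) ≤
      3 * (D * Real.sqrt (res Z E u)) := by
    rw [← Finset.sum_neg_distrib]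
    calc ∑ m, -(∑ s, ∫ x, Pg (g m) (Pg (g m) (u s)) x * (hm Z (u s) x - E * u s x)) ≤
        ∑ _m : Fin 3, D * Real.sqrt (res Z E u) := Finset.sum_le_sum fun m _ => by
          have := (abs_le.1 (a3 m)).1
          linarith
      _ = _ := by simp
  have hB2 : Z * (4 * Z * kin u + 8 * Real.sqrt (n * kin u * res Z E u)) / 2 ≤
      2 * (Z ^ 2 * kin u) + 4 * Z * Real.sqrt (n * M0) * Real.sqrt (res Z E u) := by
    have hs : Real.sqrt (n * kin u * res Z E u) ≤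
        Real.sqrt (n * M0) * Real.sqrt (res Z E u) := by
      rw [Real.sqrt_mul (mul_nonneg hn0 kin0)]
      apply mul_le_mul_of_nonneg_right _ ρ0
      apply Real.sqrt_le_sqrt
      exact mul_le_mul_of_nonneg_left (hkin.trans hMM) hn0
    have := mul_le_mul_of_nonneg_left hs (by positivity : 0 ≤ 4 * Z)
    nlinarith
  have hS0 : 0 ≤ (kin u + pair u + Z * one (fun y => 1 / nr y) u) / R ^ 2 +
      one (ball (2 * R)) u / R ^ 4 := by positivity
  have hS1 : (kin u + pair u + Z * one (fun y => 1 / nr y) u) / R ^ 2 +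
      one (ball (2 * R)) u / R ^ 4 ≤ (M0 + M0 + Z * M0) / R ^ 2 + 2 * n / R ^ 4 := by
    have k1 := hkin.trans hMM
    have k2 := hpair.trans hMM
    have k3 := hone.trans hMM
    gcongr
  have hcs := h1 n Z E (fun s => Fg (g m) (u s)) (fun s => Pg (g m) (u s)) hLow (SF m) (AF m)
    (SP m) (AP m)
  rw [h4 n Z E (g m) u (hg m).sm hu, h3 n Z E (g m) u (hg m).sm hu] at hcs
  have hfin := INL_fin hcs (a1 m) (a2 m)
    ⟨INL_one0 (fun y => Finset.sum_nonneg fun i _ => sq_nonneg _) u,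
      INL_grd (hg m) (by linarith) (hout m) hu⟩
    (C := C) (S := (kin u + pair u + Z * one (fun y => 1 / nr y) u) / R ^ 2 +
      one (ball (2 * R)) u / R ^ 4) (X := Z ^ 2 * kin u) (q := 4 * Z * Real.sqrt (n * M0))
    ⟨b0 m, by
      have := hsing.trans hbin
      linarith [this, herr, hB2]⟩ ⟨ρ0, ρ1⟩ ⟨sq0 _, hP0⟩ ⟨ν0, ν1⟩ ⟨hS0, hS1⟩
    ⟨by positivity, mul_le_mul_of_nonneg_left (hkin.trans hMM) (by positivity)⟩ hK hC.le hD hq
  refine hfin.trans ?_
  nlinarith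

end Pool.Agent.Helper95.PW
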